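import Pool.Agent.Lib.GSR5.Stmts
import Pool.Agent.Lib.GSR3.Stmts
import Pool.Agent.Lib.GSR3.ChainEx

/-!
# Existence of chains of covers exact up to labels with small fibres
-/

set_option autoImplicit false

namespace Pool.Agent.Lib.GSR5

open Finset Classical
open Pool.Agent.Lib.FracGS (pat)
open Pool.Agent.Lib.GSR3 (Stab Small EqOrDisj ProperOn app Word idx mem_idx app_congr small_empty)

namespace ChainF

variable {V : Type} {G : SimpleGraph V}

lemma restrict {A B B' : Finset V} {x g : V → V} (h : LabCov G A B x g) (hB : B' ⊆ B) :
    LabCov G A B' x g :=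
  ⟨hB.trans h.sub, fun a ha => h.mem a (hB ha), fun a ha b hb => h.out a (hB ha) b (hB hb),
    fun a ha => h.adj a (hB ha), fun a ha b hb => h.exact a (hB ha) b (hB hb)⟩

lemma subset {x g : ℕ → V → V} {A : ℕ → Finset V} {n : ℕ} (h : IsChainF G x g A n) :
    ∀ i ≤ n, A i ⊆ A 0 := by
  intro i
  induction i with
  | zero => intro _; exact subset_rfl
  | succ i ih =>
    intro hi
    exact (h.cover i (by omega)).sub.trans (ih (by omega))

/-- Extension of a chain by one level. -/
lemma extend {x g : ℕ → V → V} {A : ℕ → Finset V} {i : ℕ}
    (h : IsChainF G x g A i) {B : Finset V} {z y : V → V} (hB : LabCov G (A i) B z y)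
    (hp : ProperOn G B y)
    (hsep : ∀ t ∈ idx (i + 1), EqOrDisj B
      (fun b => Function.update g (i + 1) y t.1 (app (Function.update x (i + 1) z) t.2.1 b))
      (fun b => Function.update g (i + 1) y t.1 (app (Function.update x (i + 1) z) t.2.2 b))) :
    IsChainF G (Function.update x (i + 1) z) (Function.update g (i + 1) y)
      (Function.update A (i + 1) B) (i + 1) := by
  refine ⟨?_, ?_, ?_⟩
  · intro t ht
    rcases Nat.lt_succ_iff_lt_or_eq.mp ht with h1 | h1
    · rw [Function.update_of_ne (by omega), Function.update_of_ne (by omega),
        Function.update_of_ne (by omega), Function.update_of_ne (by omega)]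
      exact h.cover t h1
    · subst h1
      rw [Function.update_of_ne (by omega), Function.update_self, Function.update_self,
        Function.update_self]
      exact hB
  · intro t ht
    rcases Nat.lt_succ_iff_lt_or_eq.mp ht with h1 | h1
    · rw [Function.update_of_ne (by omega), Function.update_of_ne (by omega)]
      exact h.proper t h1
    · subst h1
      rw [Function.update_self, Function.update_self]
      exact hp
  · intro t ht l hl hlt v w hv hw
    by_cases h1 : t = i + 1
    · subst h1
      rw [Function.update_self]
      exact hsep (l, v, w) (mem_idx hlt hv hw)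
    · rw [Function.update_of_ne h1]
      have hx : ∀ u, Word l t u → ∀ b, app (Function.update x (i + 1) z) u b = app x u b := by
        intro u hu b
        refine app_congr u b fun m hm => ?_
        have := (hu.2 m hm).2
        rw [Function.update_of_ne (by omega)]
      rw [Function.update_of_ne (by omega : l ≠ i + 1)]
      simp only [hx v hv, hx w hw]
      exact h.sep t (by omega) l hl hlt v w hv hw

end ChainF

/-- Module `ChainF`. -/
theorem stChainF (h1 : StTreeF) (h2 : GSR3.StEqList) (h3 : GSR3.StProper) : StChainF := by
  intro n par κ f hpar hκ hf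
  -- downward induction
  have key : ∀ j : ℕ, ∃ F : ℝ, 0 ≤ F ∧ ∀ i, i + j = n → ∀ (V : Type) [Fintype V]
      (G : SimpleGraph V) (U : Finset V) (x g : ℕ → V → V) (A : ℕ → Finset V),
      HasLabF G κ U f → IsEmpty (pat par (n + 1) ↪g G) →
        IsChainF G x g A i → A 0 = U → Small G (A i) F := by
    intro j
    induction j with
    | zero =>
      refine ⟨0, le_rfl, ?_⟩
      intro i hi V _ G U x g A _ hE hA _
      have hin : i = n := by omega
      subst hin
      rcases (A i).eq_empty_or_nonempty with he | hne
      · rw [he]
        exact small_empty le_rfl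
      · obtain ⟨φ⟩ := h1 V G x g A i par hpar hA hne
        exact (hE.false φ).elim
    | succ j ih =>
      obtain ⟨F, hF, hind⟩ := ih
      refine ⟨f (κ * (5 ^ (idx (n - j)).length * F)), hf _, ?_⟩
      intro i hi V _ G U x g A hX hE hA hA0
      have hi1 : n - j = i + 1 := by omega
      refine hX (A i) (by rw [← hA0]; exact ChainF.subset hA i le_rfl) _ (by positivity) ?_
      intro B z y hB hfib
      refine h3 V G B y κ _ hκ (by positivity) hfib ?_
      intro B' hB' hp
      have hlen : (idx (n - j)).length = ((idx (i + 1)).map (fun t =>
          ((fun b : V => Function.update g (i + 1) y t.1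
              (app (Function.update x (i + 1) z) t.2.1 b)),
            (fun b : V => Function.update g (i + 1) y t.1
              (app (Function.update x (i + 1) z) t.2.2 b))))).length := by
        rw [List.length_map, hi1]
      rw [hlen]
      refine h2 V G _ B' F hF ?_
      intro B'' hB'' hsep
      have hch : IsChainF G (Function.update x (i + 1) z) (Function.update g (i + 1) y)
          (Function.update A (i + 1) B'') (i + 1) := by
        refine ChainF.extend hA (ChainF.restrict hB (hB''.trans hB')) ?_ ?_
        · intro a ha b hb hab
          exact hp a (hB'' ha) b (hB'' hb) hab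
        · intro t ht
          exact hsep _ (List.mem_map_of_mem ht)
      have := hind (i + 1) (by omega) V G U _ _ _ hX hE hch (by
        rw [Function.update_of_ne (by omega)]
        exact hA0)
      rw [Function.update_self] at this
      exact this
  obtain ⟨F, hF, h⟩ := key n
  refine ⟨F, hF, ?_⟩
  intro V _ G U hX hE
  exact h 0 (by omega) V G U (fun _ v => v) (fun _ v => v) (fun _ => U) hX hE
    ⟨fun i hi => absurd hi (by omega), fun i hi => absurd hi (by omega),
      fun i hi l hl hli => absurd hli (by omega)⟩ rfl

end Pool.Agent.Lib.GSR5
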