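import Pool.Agent.Lib.GSR5.Stmts
import Pool.Agent.Lib.GSR3.TreeChain

/-!
# A chain of covers exact up to labels contains every tree
-/

set_option autoImplicit false

namespace Pool.Agent.Lib.GSR5

open Finset Classical
open Pool.Agent.Lib.FracGS (nb wnb om TAdj Near Radius pat)
open Pool.Agent.Lib.GSR3 (Stab Small EqOrDisj ProperOn ExactCover app Word Tree)
open Pool.Agent.Lib.GSR3.TreeChain (app_append word_cases getLast?_cons_eq wd wd_zero wd_pos
  wd_word wd_last word_mono)

namespace TreeF

variable {V : Type} {G : SimpleGraph V} {x g : ℕ → V → V} {A : ℕ → Finset V} {n : ℕ}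

lemma chain_sub (h : IsChainF G x g A n) {i j : ℕ} (hij : i ≤ j) (hj : j ≤ n) : A j ⊆ A i := by
  induction j, hij using Nat.le_induction with
  | base => exact Subset.refl _
  | succ j hij ih => exact ((h.cover j (by omega)).sub).trans (ih (by omega))

/-- The mixed case of the induction. -/
lemma key_mixed (h : IsChainF G x g A n) {i : ℕ} (hi : i + 1 ≤ n) {l : ℕ} (hl : 1 ≤ l)
    (hli : l ≤ i)
    (ih : ∀ v w : List ℕ, Word l i v → Word l i w → v.getLast? ≠ w.getLast? → ∀ b ∈ A i,
      g l (app x v b) ≠ g l (app x w b))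
    {z w : List ℕ} (hz : Word l i z) (hw : Word l i w)
    (hne : ((i + 1) :: z).getLast? ≠ w.getLast?) {b : V} (hb : b ∈ A (i + 1)) :
    g l (app x ((i + 1) :: z) b) ≠ g l (app x w b) := by
  intro heq
  have hcov := h.cover i (by omega)
  have hc : x (i + 1) b ∈ A i := hcov.mem b hb
  have hb' : b ∈ A i := hcov.sub hb
  have heq' : g l (app x z (x (i + 1) b)) = g l (app x w b) := heq
  have hall : ∀ a ∈ A i, g l (app x z a) = g l (app x w a) := by
    rcases h.sep i (by omega) l hl hli z w hz hw with h1 | h1
    · exact h1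
    · exact absurd heq' (h1 _ hc _ hb')
  by_cases hlast : z.getLast? = w.getLast?
  · cases z with
    | nil =>
      rw [List.getLast?_nil] at hlast
      have hw0 : w = [] := List.getLast?_eq_none_iff.mp hlast.symm
      subst hw0
      obtain ⟨l', rfl⟩ : ∃ l', l = l' + 1 := ⟨l - 1, by omega⟩
      have hsub := chain_sub h (i := l' + 1) (j := i) hli (by omega)
      exact h.proper l' (by omega) _ (hsub hc) _ (hsub hb') (hcov.adj b hb) heq'
    | cons a z' =>
      apply hne
      rw [← hlast, List.getLast?_cons, List.getLast?_cons]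
      rfl
  · exact ih z w hz hw hlast b hb' (hall b hb')

/-- The key lemma. -/
lemma key (h : IsChainF G x g A n) : ∀ i ≤ n, ∀ l, 1 ≤ l → l ≤ i → ∀ v w : List ℕ,
    Word l i v → Word l i w → v.getLast? ≠ w.getLast? → ∀ b ∈ A i,
      g l (app x v b) ≠ g l (app x w b) := by
  intro i
  induction i with
  | zero =>
    intro _ l h1 h2
    omega
  | succ i ih =>
    intro hi l hl hli v w hv hw hne b hb
    have hcov := h.cover i (by omega)
    rcases Nat.lt_or_ge i l with h1 | h1
    · -- `l = i + 1`: both words are empty
      have hnil : ∀ u : List ℕ, Word l (i + 1) u → u = [] := by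
        intro u hu
        cases u with
        | nil => rfl
        | cons m z =>
          have := hu.2 m (by simp)
          omega
      rw [hnil v hv, hnil w hw] at hne
      exact absurd rfl hne
    have ih' := ih (by omega) l hl h1
    rcases word_cases hv with hv' | ⟨z, rfl, hz⟩ <;> rcases word_cases hw with hw' | ⟨y, rfl, hy⟩
    · exact ih' v w hv' hw' hne b (hcov.sub hb)
    · exact (key_mixed h hi hl h1 ih' hy hv' (Ne.symm hne) hb).symm
    · exact key_mixed h hi hl h1 ih' hz hw' hne hb
    · have hc : x (i + 1) b ∈ A i := hcov.mem b hb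
      refine ih' z y hz hy ?_ _ hc
      intro h2
      exact hne (getLast?_cons_eq h2)

end TreeF

open TreeF in
theorem stTreeF : StTreeF := by
  intro V G x g A n par hpar h hne
  obtain ⟨b, hb⟩ := hne
  set X : ℕ → V := fun j => app x (wd par n j) b with hX
  have hXs : ∀ j, 1 ≤ j → X j = x (n + 1 - j) (X (par j)) := by
    intro j hj
    simp only [hX]
    rw [wd_pos (hpar j hj), app_append]
    rfl
  have hXm : ∀ j ≤ n, X j ∈ A (n - j) := by
    intro j
    induction j using Nat.strong_induction_on with
    | _ j ih =>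
      intro hj
      rcases Nat.eq_zero_or_pos j with h0 | h0
      · subst h0
        simp only [hX, wd_zero]
        exact hb
      · have h1 := hpar j h0
        have h2 := ih (par j) h1 (by omega)
        have h3 : X (par j) ∈ A (n - j + 1) :=
          chain_sub h (i := n - j + 1) (j := n - par j) (by omega) (by omega) h2
        rw [hXs j h0, show n + 1 - j = n - j + 1 by omega]
        exact (h.cover (n - j) (by omega)).mem _ h3
  -- the relation between two nodes
  have hrel : ∀ i j, i < j → j ≤ n → X j ≠ X i ∧ (G.Adj (X j) (X i) ↔ par j = i) := by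
    intro i j hij hj
    have h0 : 1 ≤ j := by omega
    have h1 := hpar j h0
    have hcov := h.cover (n - j) (by omega)
    have hp : X (par j) ∈ A (n - j + 1) :=
      chain_sub h (i := n - j + 1) (j := n - par j) (by omega) (by omega) (hXm _ (by omega))
    have hi : X i ∈ A (n - j + 1) :=
      chain_sub h (i := n - j + 1) (j := n - i) (by omega) (by omega) (hXm _ (by omega))
    have hXj : X j = x (n - j + 1) (X (par j)) := by
      rw [hXs j h0, show n + 1 - j = n - j + 1 by omega]
    refine ⟨?_, ?_, ?_⟩
    · rw [hXj]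
      exact hcov.out _ hp _ hi
    · intro hadj
      by_contra hne
      rw [hXj] at hadj
      have h2 := hcov.exact _ hp _ hi hadj
      refine key h n le_rfl (n - j + 1) (by omega) (by omega) (wd par n (par j)) (wd par n i)
        (word_mono (wd_word hpar n (par j) (by omega)) (by omega))
        (word_mono (wd_word hpar n i (by omega)) (by omega)) ?_ b hb h2
      intro h3
      exact hne (wd_last hpar (by omega) (by omega) h3)
    · intro hpe
      rw [hXj, ← hpe]
      exact hcov.adj _ hp
  refine ⟨⟨⟨fun j => X j.1, ?_⟩, ?_⟩⟩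
  · intro i j hij
    simp only at hij
    rcases Nat.lt_trichotomy i.1 j.1 with h1 | h1 | h1
    · exact absurd hij.symm (hrel _ _ h1 (by omega)).1
    · exact Fin.ext h1
    · exact absurd hij (hrel _ _ h1 (by omega)).1
  · intro i j
    show G.Adj (X i.1) (X j.1) ↔ (i.1 < j.1 ∧ par j.1 = i.1) ∨ (j.1 < i.1 ∧ par i.1 = j.1)
    rcases Nat.lt_trichotomy i.1 j.1 with h1 | h1 | h1
    · rw [G.adj_comm, (hrel _ _ h1 (by omega)).2]
      constructor
      · exact fun h2 => Or.inl ⟨h1, h2⟩
      · rintro (⟨_, h2⟩ | ⟨h2, _⟩)
        · exact h2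
        · omega
    · constructor
      · intro h2
        rw [h1] at h2
        exact absurd h2 (G.loopless.irrefl _)
      · rintro (⟨h2, _⟩ | ⟨h2, _⟩) <;> omega
    · rw [(hrel _ _ h1 (by omega)).2]
      constructor
      · exact fun h2 => Or.inr ⟨h1, h2⟩
      · rintro (⟨h2, _⟩ | ⟨_, h2⟩)
        · omega
        · exact h2

end Pool.Agent.Lib.GSR5
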