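import Pool.Agent.Lib.GSR5.Defs
import Pool.Agent.Lib.GSR3.Base

/-!
# Trees of radius five in graphs with small second neighbourhoods: simple lemmas
-/

set_option autoImplicit false
set_option linter.unusedSectionVars false
set_option linter.unusedVariables false

namespace Pool.Agent.Lib.GSR5

open Finset Classical
open Pool.Agent.Lib.FracGS (nb wnb om TAdj LTree NoTree Scheme Sep Rich mem_nb nb_subset nb_mono)
open Pool.Agent.Lib.GSR3 (Stab Small EqOrDisj ProperOn app Word Tree LPSol ExactCover)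
open Pool.Agent.Lib.GSR4 (TriFree)
open Pool.Agent.Lib.UncGS (NE)

variable {V : Type} {G : SimpleGraph V} {U U' : Finset V}

/-! ### Neighbourhoods -/

lemma mem_nb2 {v a : V} : a ∈ nb2 G U v ↔ a ∈ U ∧ ∃ w ∈ U, G.Adj v w ∧ G.Adj w a :=
  Finset.mem_filter

lemma nb2_subset (v : V) : nb2 G U v ⊆ U := Finset.filter_subset _ _

lemma nb2_mono (h : U' ⊆ U) (v : V) : nb2 G U' v ⊆ nb2 G U v := by
  intro a ha
  obtain ⟨h1, w, h2, h3⟩ := mem_nb2.mp ha
  exact mem_nb2.mpr ⟨h h1, w, h h2, h3⟩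

lemma nb_stab (hG : TriFree G) (A : Finset V) (v : V) : Stab G (nb G A v) := by
  intro u hu w hw huw
  exact hG v u w (mem_nb.mp hu).2 huw (mem_nb.mp hw).2

lemma nb_small (hG : TriFree G) (A : Finset V) (v : V) {κ : ℝ} (hκ : 1 ≤ κ) :
    Small G (nb G A v) κ :=
  (nb_stab hG A v).small hκ

/-! ### Covers exact up to labels -/

/-- Labels in an arbitrary type. -/
lemma NLC.cover {κ c : ℝ} (h : NLC G U κ c) {Λ : Type} {P Q : Finset V} {hp hq : V → Λ}
    (hP : P ⊆ U) (hQ : Q ⊆ U) (hd : Disjoint Q P) (hex : ∀ q ∈ Q, ∃ p ∈ P, G.Adj q p)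
    (hl : ∀ q ∈ Q, ∀ p ∈ P, G.Adj q p → hp p = hq q) (hκ : 0 ≤ κ)
    (hs : ∀ (t : Λ) (S : Finset V), S ⊆ Q → (∀ q ∈ S, hq q = t) → Small G S κ) :
    Small G Q c := by
  have h1 : ∀ q : V, ∃ p : V, q ∈ Q → p ∈ P ∧ G.Adj q p := by
    intro q
    by_cases hq' : q ∈ Q
    · obtain ⟨p, h2, h3⟩ := hex q hq'
      exact ⟨p, fun _ => ⟨h2, h3⟩⟩
    · exact ⟨q, fun h => absurd h hq'⟩
  choose x hx using h1
  rcases Q.eq_empty_or_nonempty with rfl | ⟨q0, hq0⟩
  · refine h ∅ id id ⟨Finset.empty_subset _, by simp, by simp, by simp, by simp⟩ fun u => ?_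
    rw [Finset.filter_empty]
    exact GSR3.small_empty hκ
  have h2 : ∀ t : Λ, ∃ v : V, (∃ q ∈ Q, hq q = t) → v ∈ Q ∧ hq v = t := by
    intro t
    by_cases ht : ∃ q ∈ Q, hq q = t
    · obtain ⟨q, h3, h4⟩ := ht
      exact ⟨q, fun _ => ⟨h3, h4⟩⟩
    · exact ⟨q0, fun h => absurd h ht⟩
  choose r hr using h2
  refine h Q x (fun q => r (hq q)) ⟨hQ, fun a ha => hP (hx a ha).1, ?_, ?_, ?_⟩ ?_
  · intro a ha b hb hab
    exact Finset.disjoint_left.mp hd hb (hab ▸ (hx a ha).1)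
  · intro a ha
    exact (hx a ha).2.symm
  · intro a ha b hb hab
    have h3 := hl a ha (x a) (hx a ha).1 (hx a ha).2
    have h4 := hl b hb (x a) (hx a ha).1 hab.symm
    rw [← h3, ← h4]
  · intro u
    by_cases hu : ∃ a ∈ Q, r (hq a) = u
    · obtain ⟨a, ha, rfl⟩ := hu
      refine hs (hq a) _ (Finset.filter_subset _ _) ?_
      intro b hb
      obtain ⟨h3, h4⟩ := Finset.mem_filter.mp hb
      have h5 := (hr (hq a) ⟨a, ha, rfl⟩).2
      have h6 := (hr (hq b) ⟨b, h3, rfl⟩).2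
      rw [← h6, h4, h5]
    · have h3 : Q.filter (fun a => r (hq a) = u) = ∅ := by
        refine Finset.filter_eq_empty_iff.mpr fun a ha hau => hu ⟨a, ha, hau⟩
      rw [h3]
      exact GSR3.small_empty hκ

/-- Exact covers are covers exact up to labels; the classes lie in neighbourhoods. -/
lemma NLC.ne {κ c : ℝ} (h : NLC G U κ c) (hG : TriFree G) (hκ : 1 ≤ κ) : NE G U c := by
  intro B x hB
  refine h B x x ⟨hB.sub, hB.mem, hB.out, hB.adj, hB.exact⟩ fun u => ?_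
  refine Stab.small ?_ hκ
  intro a ha b hb hab
  obtain ⟨ha1, ha2⟩ := Finset.mem_filter.mp ha
  obtain ⟨hb1, hb2⟩ := Finset.mem_filter.mp hb
  have h1 := hB.adj a ha1
  have h2 := hB.adj b hb1
  rw [ha2] at h1
  rw [hb2] at h2
  exact hG u a b h1 hab h2

lemma NLC.mono {κ κ' c c' : ℝ} (h : NLC G U κ c) (hκ : κ' ≤ κ) (hc : c ≤ c') :
    NLC G U κ' c' :=
  fun B x g hB hs => (h B x g hB fun u => (hs u).mono_const hκ).mono_const hc

/-! ### Laws -/

section Law

variable {Ω : Type} [Fintype Ω] {τ : Ω → ℝ} {E F : Ω → Prop}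

lemma pr_nonneg (h : ∀ x, 0 ≤ τ x) (E : Ω → Prop) : 0 ≤ pr τ E :=
  Finset.sum_nonneg fun x _ => h x

lemma pr_mono (h : ∀ x, 0 ≤ τ x) (hEF : ∀ x, τ x ≠ 0 → E x → F x) : pr τ E ≤ pr τ F := by
  unfold pr
  rw [Finset.sum_filter, Finset.sum_filter]
  refine Finset.sum_le_sum fun x _ => ?_
  by_cases hE : E x
  · by_cases h0 : τ x = 0
    · rw [h0]
      simp
    · rw [if_pos hE, if_pos (hEF x h0 hE)]
  · rw [if_neg hE]
    split_ifs
    · exact h x
    · exact le_refl _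

lemma pr_or (h : ∀ x, 0 ≤ τ x) (E F : Ω → Prop) : pr τ (fun x => E x ∨ F x) ≤ pr τ E + pr τ F := by
  unfold pr
  rw [Finset.sum_filter, Finset.sum_filter, Finset.sum_filter, ← Finset.sum_add_distrib]
  refine Finset.sum_le_sum fun x _ => ?_
  have := h x
  by_cases hE : E x <;> by_cases hF : F x <;> simp [hE, hF]
  all_goals linarith

/-- The union bound. -/
lemma pr_exists {ι : Type} (h : ∀ x, 0 ≤ τ x) (S : Finset ι) (E : ι → Ω → Prop) :
    pr τ (fun x => ∃ i ∈ S, E i x) ≤ ∑ i ∈ S, pr τ (E i) := by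
  induction S using Finset.induction_on with
  | empty =>
    simp [pr]
  | insert a S ha ih =>
    rw [Finset.sum_insert ha]
    refine le_trans (pr_mono h (F := fun x => E a x ∨ ∃ i ∈ S, E i x) ?_)
      ((pr_or h _ _).trans (add_le_add (le_refl _) ih))
    rintro x _ ⟨i, hi, hx⟩
    rcases Finset.mem_insert.mp hi with rfl | hi
    · exact Or.inl hx
    · exact Or.inr ⟨i, hi, hx⟩

lemma pr_false : pr τ (fun _ => False) = 0 := by
  simp [pr]

lemma Law.pr_true (h : Law τ) : pr τ (fun _ => True) = 1 := by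
  simp [pr, h.one]

lemma Law.pr_le_one (h : Law τ) (E : Ω → Prop) : pr τ E ≤ 1 := by
  rw [← h.pr_true]
  exact pr_mono h.nn fun _ _ _ => trivial

lemma Law.pr_not (h : Law τ) (E : Ω → Prop) : pr τ (fun x => ¬ E x) = 1 - pr τ E := by
  have h1 := h.one
  unfold pr
  rw [eq_sub_iff_add_eq, Finset.sum_filter, Finset.sum_filter, ← Finset.sum_add_distrib, ← h1]
  refine Finset.sum_congr rfl fun x _ => ?_
  by_cases hE : E x <;> simp [hE]

/-- An event of probability less than one can be avoided. -/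
lemma Law.exists_not (h : Law τ) (E : Ω → Prop) (hE : pr τ E < 1) : ∃ x, τ x ≠ 0 ∧ ¬ E x := by
  by_contra hcon
  push Not at hcon
  have h1 : pr τ (fun _ => True) ≤ pr τ E := pr_mono h.nn fun x hx _ => hcon x hx
  rw [h.pr_true] at h1
  linarith

lemma Law.exists_ne (h : Law τ) : ∃ x, τ x ≠ 0 := by
  obtain ⟨x, hx, _⟩ := h.exists_not (fun _ => False) (by rw [pr_false]; norm_num)
  exact ⟨x, hx⟩

lemma pr_eq (τ : Ω → ℝ) (E : Ω → Prop) : pr τ E = ∑ x, if E x then τ x else 0 :=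
  Finset.sum_filter _ _

/-- Restriction of a law on pairs. -/
lemma pr_fst_le {A B : Type} [Fintype A] [Fintype B] {τ : A × B → ℝ} (h : ∀ x, 0 ≤ τ x) (p : A)
    {E : B → Prop} {F : A × B → Prop} (hEF : ∀ t, E t → F (p, t)) :
    pr (fun t => τ (p, t)) E ≤ pr τ F := by
  unfold pr
  have h1 := Finset.sum_map (Finset.univ.filter E)
    ⟨fun t : B => ((p, t) : A × B), fun a b h => (Prod.mk.inj h).2⟩ τ
  refine le_trans (le_of_eq h1.symm) ?_
  refine Finset.sum_le_sum_of_subset_of_nonneg ?_ fun x _ _ => h x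
  intro x hx
  obtain ⟨t, ht, rfl⟩ := Finset.mem_map.mp hx
  exact Finset.mem_filter.mpr ⟨Finset.mem_univ _, hEF t (Finset.mem_filter.mp ht).2⟩

end Law

/-- A set which is not `σ`-small has a law whose stable sets have mass at most `1 / σ`. -/
lemma exists_law [Fintype V] {S : Finset V} {σ : ℝ} (hσ : 0 < σ) (h : ¬ Small G S σ) :
    ∃ μ : V → ℝ, Law μ ∧ (∀ v, μ v ≠ 0 → v ∈ S) ∧
      ∀ B κ, 0 ≤ κ → Small G B κ → pr μ (fun v => v ∈ B) ≤ κ / σ := by
  unfold GSR3.Small at h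
  push Not at h
  obtain ⟨w, hw0, hw⟩ := h
  have hpos : 0 < ∑ v ∈ S, w v := by
    have := hw ∅ (Finset.empty_subset _) GSR3.stab_empty
    simpa using this
  set T : ℝ := ∑ v ∈ S, w v with hT
  refine ⟨fun v => if v ∈ S then w v / T else 0, ⟨?_, ?_⟩, ?_, ?_⟩
  · intro v
    split_ifs
    · exact div_nonneg (hw0 v) hpos.le
    · exact le_refl _
  · rw [← Finset.sum_filter, Finset.filter_mem_eq_inter, Finset.univ_inter, ← Finset.sum_div,
      ← hT, div_self hpos.ne']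
  · intro v hv
    by_contra hvS
    exact hv (if_neg hvS)
  · intro B κ hκ hB
    have h1 : pr (fun v => if v ∈ S then w v / T else 0) (fun v => v ∈ B) =
        (∑ v ∈ B ∩ S, w v) / T := by
      unfold pr
      rw [Finset.sum_ite, Finset.sum_const_zero, add_zero, ← Finset.sum_div]
      congr 2
      ext v
      simp
    rw [h1]
    obtain ⟨I, hI1, hI2, hI3⟩ := (hB.mono_set (Finset.inter_subset_left (s₂ := S))) w hw0
    have h2 := hw I (hI1.trans Finset.inter_subset_right) hI2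
    have h3 : 0 ≤ ∑ v ∈ I, w v := Finset.sum_nonneg fun v _ => hw0 v
    rw [div_le_div_iff₀ hpos hσ]
    nlinarith

/-! ### Captors -/

lemma Poor.anti {y : V → ℝ} {e1 : ℝ} {K : ℕ} {R R' : Finset V} (h : Poor G U y e1 K R)
    (hR : R' ⊆ R) : Poor G U y e1 K R' := by
  obtain ⟨Q, h1, h2, h3⟩ := h
  exact ⟨Q, h1, h2, fun p hp => h3 p (hR hp)⟩

lemma poor_empty {y : V → ℝ} {e1 : ℝ} {K : ℕ} : Poor G U y e1 K ∅ :=
  ⟨∅, Finset.empty_subset _, by simp, by simp⟩

lemma nonempty_of_not_poor {y : V → ℝ} {e1 : ℝ} {K : ℕ} {R : Finset V}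
    (h : ¬ Poor G U y e1 K R) : R.Nonempty := by
  by_contra hcon
  rw [Finset.not_nonempty_iff_eq_empty] at hcon
  subst hcon
  exact h poor_empty

lemma Gam_mono [Fintype V] {A X : Finset V} {y : V → ℝ} {e1 : ℝ} {K : ℕ} {D D' : Finset V}
    (h : D ⊆ D') : Gam G U A X y e1 K D ⊆ Gam G U A X y e1 K D' := by
  intro a ha
  obtain ⟨h1, q, h2, h3⟩ := Finset.mem_filter.mp ha
  exact Finset.mem_filter.mpr ⟨h1, q, h h2, h3⟩

lemma RichLaw.mono [Fintype V] {X : Finset V} {y : V → ℝ} {e1 : ℝ} {K M : ℕ} {e e' : ℝ}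
    (h : RichLaw G U X y e1 K e M) (he : e ≤ e') : RichLaw G U X y e1 K e' M := by
  intro R hR hn
  obtain ⟨τ, h1, h2, h3⟩ := h R hR hn
  exact ⟨τ, h1, h2, fun u hu => (h3 u hu).trans he⟩

/-! ### Trees of depth two -/

section T2

variable {M : ℕ} {S : Finset V} {p : V} {t : T2 M V}

lemma mem_body {v : V} : v ∈ body t ↔ (∃ i, t.1 i = v) ∨ ∃ i j, t.2 i j = v := by
  unfold body
  simp only [Finset.mem_union, Finset.mem_image, Finset.mem_univ, true_and, Prod.exists]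

lemma fst_mem_body (i : Fin M) : t.1 i ∈ body t := mem_body.mpr (Or.inl ⟨i, rfl⟩)

lemma snd_mem_body (i j : Fin M) : t.2 i j ∈ body t := mem_body.mpr (Or.inr ⟨i, j, rfl⟩)

lemma card_body_le : (body t).card ≤ M + M ^ 2 := by
  unfold body
  refine (Finset.card_union_le _ _).trans (add_le_add ?_ ?_)
  · exact Finset.card_image_le.trans (by simp)
  · refine Finset.card_image_le.trans ?_
    simp [sq]

lemma IsT2.mono {S' : Finset V} (h : IsT2 G S p t) (hS : S ⊆ S') : IsT2 G S' p t :=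
  ⟨fun v hv => hS (h.mem v hv), h.rt, h.adj1, h.adj2, h.inj1, h.inj2, h.ne, h.na0, h.na1, h.na2,
    h.na3⟩

lemma hits_iff {u : V} : Hits G S u ↔ ∃ v ∈ S, v = u ∨ G.Adj v u := Iff.rfl

lemma Hits.symm {S' : Finset V} (h : ∃ u ∈ S', Hits G S u) : ∃ u ∈ S, Hits G S' u := by
  obtain ⟨u, hu, v, hv, h⟩ := h
  exact ⟨v, hv, u, hu, h.elim (fun h => Or.inl h.symm) (fun h => Or.inr h.symm)⟩

/-- The tree of depth two from a tree of words. -/
lemma isT2_of_tree {φ : List (Fin M) → V} (h : Tree G 2 M φ)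
    (hS : ∀ w, w ≠ [] → w.length ≤ 2 → φ w ∈ S) :
    IsT2 G S (φ []) (fun i => φ [i], fun i j => φ [j, i]) := by
  have hm : ∀ v ∈ body ((fun i => φ [i], fun i j => φ [j, i]) : T2 M V),
      ∃ w : List (Fin M), w ≠ [] ∧ w.length ≤ 2 ∧ φ w = v := by
    intro v hv
    rcases mem_body.mp hv with ⟨i, rfl⟩ | ⟨i, j, rfl⟩
    · exact ⟨[i], by simp, by simp, rfl⟩
    · exact ⟨[j, i], by simp, by simp, rfl⟩
  refine ⟨?_, ?_, ?_, ?_, ?_, ?_, ?_, ?_, ?_, ?_, ?_⟩
  · intro v hv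
    obtain ⟨w, h1, h2, rfl⟩ := hm v hv
    exact hS w h1 h2
  · intro v hv
    obtain ⟨w, h1, h2, rfl⟩ := hm v hv
    exact fun h3 => h1 (h.inj _ _ h2 (by simp) h3)
  · intro i
    exact (h.adj _ _ (by simp) (by simp)).mpr (Or.inr ⟨i, rfl⟩)
  · intro i j
    exact (h.adj _ _ (by simp) (by simp)).mpr (Or.inr ⟨j, rfl⟩)
  · intro i j hij
    have := h.inj _ _ (by simp) (by simp) hij
    simpa using this
  · intro i j k l hij
    have := h.inj _ _ (by simp) (by simp) hij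
    simp only [List.cons.injEq, and_true] at this
    exact ⟨this.2, this.1⟩
  · intro i j k hij
    have := h.inj _ _ (by simp) (by simp) hij
    simp at this
  · intro i j hij
    rcases (h.adj _ _ (by simp) (by simp)).mp hij with ⟨t, ht⟩ | ⟨t, ht⟩
    · simp at ht
    · simp at ht
  · intro i j hij
    rcases (h.adj _ _ (by simp) (by simp)).mp hij with ⟨t, ht⟩ | ⟨t, ht⟩
    · simp at ht
    · simp at ht
  · intro i j k hne hij
    rcases (h.adj _ _ (by simp) (by simp)).mp hij with ⟨t, ht⟩ | ⟨t, ht⟩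
    · simp at ht
    · simp only [List.cons.injEq, and_true] at ht
      exact hne ht.2.symm
  · intro i j k l hij
    rcases (h.adj _ _ (by simp) (by simp)).mp hij with ⟨t, ht⟩ | ⟨t, ht⟩
    · simp at ht
    · simp at ht

end T2

end Pool.Agent.Lib.GSR5
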