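import Pool.Agent.Lib.GSR5.Stmts
import Pool.Agent.Lib.GSR5.Base

/-!
# Independent choices avoiding unlikely events
-/

set_option autoImplicit false

namespace Pool.Agent.Lib.GSR5

open Finset Classical

namespace Indep

variable {L Ω : Type} [Fintype L] [Fintype Ω] {τ : L → Ω → ℝ}

/-- The sum of a product. -/
lemma sum_prod (g : L → Ω → ℝ) : ∑ f : L → Ω, ∏ l, g l (f l) = ∏ l, ∑ w, g l w := by
  rw [Finset.prod_univ_sum, Fintype.piFinset_univ]

lemma total (hτ : ∀ l, Law (τ l)) : ∑ f : L → Ω, ∏ l, τ l (f l) = 1 := by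
  rw [sum_prod]
  exact Finset.prod_eq_one fun l _ => (hτ l).one

/-- The marginal of one coordinate. -/
lemma marg (hτ : ∀ l, Law (τ l)) (l : L) (F : Ω → ℝ) :
    ∑ f : L → Ω, (∏ m, τ m (f m)) * F (f l) = ∑ w, τ l w * F w := by
  have h1 : ∀ f : L → Ω, (∏ m, τ m (f m)) * F (f l) =
      ∏ m, (τ m (f m) * if m = l then F (f m) else 1) := by
    intro f
    rw [Finset.prod_mul_distrib]
    congr 1
    rw [Finset.prod_ite_eq' Finset.univ l (fun m => F (f m))]
    simp
  rw [Finset.sum_congr rfl fun f _ => h1 f, sum_prod (fun m x => τ m x * if m = l then F x else 1)]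
  rw [Finset.prod_eq_single l]
  · simp
  · intro m _ hm
    simp only [if_neg hm, mul_one]
    exact (hτ m).one
  · intro h
    exact absurd (Finset.mem_univ l) h

/-- The marginal of two coordinates. -/
lemma marg2 (hτ : ∀ l, Law (τ l)) {l l' : L} (hl : l ≠ l') (F : Ω → Ω → ℝ) :
    ∑ f : L → Ω, (∏ m, τ m (f m)) * F (f l) (f l') = ∑ w, τ l w * ∑ w', τ l' w' * F w w' := by
  have h1 : ∀ f : L → Ω, (∏ m, τ m (f m)) * F (f l) (f l') =
      ∑ w, ((∏ m, (if m = l' then (fun x => if x = w then τ l' x else 0) (f m)
        else τ m (f m))) * F (f l) w) := by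
    intro f
    have h2 : ∀ w, (∏ m, (if m = l' then (fun x => if x = w then τ l' x else 0) (f m)
        else τ m (f m))) = if f l' = w then ∏ m, τ m (f m) else 0 := by
      intro w
      split_ifs with h
      · refine Finset.prod_congr rfl fun m _ => ?_
        by_cases hm : m = l'
        · subst hm
          simp [h]
        · simp [hm]
      · refine Finset.prod_eq_zero (Finset.mem_univ l') ?_
        simp [h]
    rw [Finset.sum_congr rfl fun w _ => by rw [h2 w]]
    simp
  rw [Finset.sum_congr rfl fun f _ => h1 f, Finset.sum_comm]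
  have h3 : ∀ w : Ω, ∑ f : L → Ω, ((∏ m, (if m = l' then (fun x => if x = w then τ l' x else 0) (f m)
        else τ m (f m))) * F (f l) w) = ∑ v, τ l v * (τ l' w * F v w) := by
    intro w
    have h4 : ∀ f : L → Ω, ((∏ m, (if m = l' then (fun x => if x = w then τ l' x else 0) (f m)
        else τ m (f m))) * F (f l) w) =
        ∏ m, ((if m = l' then (if f m = w then τ l' (f m) else 0) else τ m (f m)) *
          if m = l then F (f m) w else 1) := by
      intro f
      rw [Finset.prod_mul_distrib]
      congr 1
      rw [Finset.prod_ite_eq' Finset.univ l (fun m => F (f m) w)]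
      simp
    rw [Finset.sum_congr rfl fun f _ => h4 f,
      sum_prod (fun m x => (if m = l' then (if x = w then τ l' x else 0) else τ m x) *
          if m = l then F x w else 1)]
    rw [← Finset.mul_prod_erase Finset.univ _ (Finset.mem_univ l)]
    have h5 : l' ∈ Finset.univ.erase l := Finset.mem_erase.mpr ⟨hl.symm, Finset.mem_univ _⟩
    rw [← Finset.mul_prod_erase _ _ h5]
    have h6 : ∏ m ∈ (Finset.univ.erase l).erase l',
        ∑ x, ((if m = l' then (if x = w then τ l' x else 0) else τ m x) *
          if m = l then F x w else 1) = 1 := by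
      refine Finset.prod_eq_one fun m hm => ?_
      have hm1 : m ≠ l' := (Finset.mem_erase.mp hm).1
      have hm2 : m ≠ l := (Finset.mem_erase.mp (Finset.mem_erase.mp hm).2).1
      simp only [if_neg hm1, if_neg hm2, mul_one]
      exact (hτ m).one
    rw [h6]
    simp only [if_neg hl, if_true, if_neg hl.symm, mul_one, Finset.sum_ite_eq', Finset.mem_univ]
    rw [Finset.sum_mul]
    refine Finset.sum_congr rfl fun v _ => by ring
  rw [Finset.sum_congr rfl fun w _ => h3 w, Finset.sum_comm]
  refine Finset.sum_congr rfl fun w _ => ?_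
  rw [Finset.mul_sum]

end Indep

open Indep in
theorem stIndep : StIndep := by
  intro L Ω _ _ τ B R β hτ hβ hB hR hc
  by_contra hcon
  push Not at hcon
  set W : (L → Ω) → ℝ := fun f => ∏ l, τ l (f l) with hW
  have hW0 : ∀ f, 0 ≤ W f := fun f => Finset.prod_nonneg fun l _ => (hτ l).nn _
  -- the number of bad events
  have h1 : ∀ f : L → Ω, W f ≤ ∑ l, W f * (if B l (f l) then 1 else 0) +
      ∑ l, ∑ l', W f * (if l ≠ l' ∧ R l l' (f l) (f l') then 1 else 0) := by
    intro f
    by_cases hf : ∀ l, τ l (f l) ≠ 0
    · have h0 : ∀ l, 0 ≤ W f * (if B l (f l) then (1 : ℝ) else 0) := by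
        intro l
        have := hW0 f
        split_ifs <;> simp [this]
      have h0' : ∀ l l', 0 ≤ W f * (if l ≠ l' ∧ R l l' (f l) (f l') then (1 : ℝ) else 0) := by
        intro l l'
        have := hW0 f
        split_ifs <;> simp [this]
      by_cases hb : ∀ l, ¬ B l (f l)
      · obtain ⟨l, l', hne, hr⟩ := hcon f hf hb
        have h2 : W f ≤ ∑ l, ∑ l', W f * (if l ≠ l' ∧ R l l' (f l) (f l') then (1 : ℝ) else 0) := by
          refine le_trans ?_ (Finset.single_le_sum
            (f := fun l => ∑ l', W f * (if l ≠ l' ∧ R l l' (f l) (f l') then (1 : ℝ) else 0))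
            (fun l _ => Finset.sum_nonneg fun l' _ => h0' l l') (Finset.mem_univ l))
          refine le_trans ?_ (Finset.single_le_sum
            (f := fun l' => W f * (if l ≠ l' ∧ R l l' (f l) (f l') then (1 : ℝ) else 0))
            (fun l' _ => h0' l l') (Finset.mem_univ l'))
          simp [hne, hr]
        have h3 : 0 ≤ ∑ l, W f * (if B l (f l) then (1 : ℝ) else 0) :=
          Finset.sum_nonneg fun l _ => h0 l
        linarith
      · push Not at hb
        obtain ⟨l, hl⟩ := hb
        have h2 : W f ≤ ∑ l, W f * (if B l (f l) then (1 : ℝ) else 0) := by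
          refine le_trans ?_ (Finset.single_le_sum
            (f := fun l => W f * (if B l (f l) then (1 : ℝ) else 0))
            (fun l _ => h0 l) (Finset.mem_univ l))
          simp [hl]
        have h3 : 0 ≤ ∑ l, ∑ l', W f * (if l ≠ l' ∧ R l l' (f l) (f l') then (1 : ℝ) else 0) :=
          Finset.sum_nonneg fun l _ => Finset.sum_nonneg fun l' _ => h0' l l'
        linarith
    · push Not at hf
      obtain ⟨l, hl⟩ := hf
      have : W f = 0 := Finset.prod_eq_zero (Finset.mem_univ l) hl
      simp [this]
  have h2 : ∑ f, W f = 1 := total hτ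
  have h3 : ∑ f, W f ≤ ∑ f, (∑ l, W f * (if B l (f l) then 1 else 0) +
      ∑ l, ∑ l', W f * (if l ≠ l' ∧ R l l' (f l) (f l') then 1 else 0)) :=
    Finset.sum_le_sum fun f _ => h1 f
  rw [Finset.sum_add_distrib] at h3
  have h4 : ∑ f : L → Ω, ∑ l, W f * (if B l (f l) then (1 : ℝ) else 0) ≤ Fintype.card L * β := by
    rw [Finset.sum_comm]
    calc ∑ l, ∑ f : L → Ω, W f * (if B l (f l) then (1 : ℝ) else 0)
        ≤ ∑ _l : L, β := by
          refine Finset.sum_le_sum fun l _ => ?_
          rw [marg hτ l (fun w => if B l w then 1 else 0)]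
          refine le_trans (le_of_eq ?_) (hB l)
          unfold pr
          rw [Finset.sum_filter]
          refine Finset.sum_congr rfl fun w _ => ?_
          split_ifs <;> simp
      _ = Fintype.card L * β := by
          rw [Finset.sum_const, Finset.card_univ, nsmul_eq_mul]
  have h5 : ∑ f : L → Ω, ∑ l, ∑ l',
      W f * (if l ≠ l' ∧ R l l' (f l) (f l') then (1 : ℝ) else 0) ≤
        (Fintype.card L : ℝ) ^ 2 * β := by
    rw [Finset.sum_comm]
    calc ∑ l, ∑ f : L → Ω, ∑ l',
        W f * (if l ≠ l' ∧ R l l' (f l) (f l') then (1 : ℝ) else 0)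
        ≤ ∑ _l : L, (Fintype.card L : ℝ) * β := by
          refine Finset.sum_le_sum fun l _ => ?_
          rw [Finset.sum_comm]
          calc ∑ l', ∑ f : L → Ω,
              W f * (if l ≠ l' ∧ R l l' (f l) (f l') then (1 : ℝ) else 0)
              ≤ ∑ _l' : L, β := by
                refine Finset.sum_le_sum fun l' _ => ?_
                by_cases hl : l = l'
                · simp [hl, hβ]
                · rw [marg2 hτ hl (fun w w' => if l ≠ l' ∧ R l l' w w' then 1 else 0)]
                  refine le_trans (le_of_eq ?_) (hR l l' hl)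
                  refine Finset.sum_congr rfl fun w _ => ?_
                  congr 1
                  unfold pr
                  rw [Finset.sum_filter]
                  refine Finset.sum_congr rfl fun w' _ => ?_
                  by_cases hr : R l l' w w' <;> simp [hl, hr]
            _ = (Fintype.card L : ℝ) * β := by
                rw [Finset.sum_const, Finset.card_univ, nsmul_eq_mul]
      _ = (Fintype.card L : ℝ) ^ 2 * β := by
          rw [Finset.sum_const, Finset.card_univ, nsmul_eq_mul]
          ring
  have h6 : (1 : ℝ) ≤ ((Fintype.card L : ℝ) + (Fintype.card L : ℝ) ^ 2) * β := by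
    have : ((Fintype.card L : ℝ) + (Fintype.card L : ℝ) ^ 2) * β =
      Fintype.card L * β + (Fintype.card L : ℝ) ^ 2 * β := by ring
    rw [this]
    linarith
  linarith

end Pool.Agent.Lib.GSR5
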