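import Pool.Agent.Lib.GSR4.Defs

/-!
# Trees of radius five in graphs with small second neighbourhoods: definitions

All graphs are finite, all vertex sets are finsets.  `Small G A c` (from `GSR3`) says that the
fractional chromatic number of `G[A]` is at most `c`.
-/

set_option autoImplicit false

namespace Pool.Agent.Lib.GSR5

open Finset Classical
open Pool.Agent.Lib.FracGS (nb wnb om TAdj LTree NoTree Scheme Sep Rich)
open Pool.Agent.Lib.GSR3 (Stab Small EqOrDisj ProperOn app Word Tree LPSol)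
open Pool.Agent.Lib.GSR4 (TriFree)

/-- The second neighbourhood of `v` inside `U`. -/
noncomputable def nb2 {V : Type} (G : SimpleGraph V) (U : Finset V) (v : V) : Finset V :=
  U.filter (fun a => ∃ w ∈ U, G.Adj v w ∧ G.Adj w a)

/-- Inside `A`, the vertices `x a` (`a ∈ B`) form a cover of `B` which is exact up to the labels
`g`: if `x a` is a neighbour of `b` then `a` and `b` have the same label. -/
structure LabCov {V : Type} (G : SimpleGraph V) (A B : Finset V) (x g : V → V) : Prop where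
  sub : B ⊆ A
  mem : ∀ a ∈ B, x a ∈ A
  out : ∀ a ∈ B, ∀ b ∈ B, x a ≠ b
  adj : ∀ a ∈ B, G.Adj (x a) a
  exact : ∀ a ∈ B, ∀ b ∈ B, G.Adj (x a) b → g a = g b

/-- All the sets with a cover exact up to labels with `κ`-small classes inside `U` are
`c`-small. -/
def NLC {V : Type} (G : SimpleGraph V) (U : Finset V) (κ c : ℝ) : Prop :=
  ∀ B x g, LabCov G U B x g → (∀ u, Small G (B.filter (fun a => g a = u)) κ) → Small G B c

/-- For all subsets `A` of `U`: if the sets with a cover exact up to labels with `κ`-small classes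
inside `A` are `c`-small, then `A` is `f c`-small. -/
def HasLabF {V : Type} (G : SimpleGraph V) (κ : ℝ) (U : Finset V) (f : ℝ → ℝ) : Prop :=
  ∀ A, A ⊆ U → ∀ c : ℝ, 0 ≤ c → NLC G A κ c → Small G A (f c)

/-- A chain `A 0 ⊇ A 1 ⊇ ... ⊇ A n` of covers exact up to labels. -/
structure IsChainF {V : Type} (G : SimpleGraph V) (x g : ℕ → V → V) (A : ℕ → Finset V)
    (n : ℕ) : Prop where
  cover : ∀ i < n, LabCov G (A i) (A (i + 1)) (x (i + 1)) (g (i + 1))
  proper : ∀ i < n, ProperOn G (A (i + 1)) (g (i + 1))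
  sep : ∀ i ≤ n, ∀ l, 1 ≤ l → l ≤ i → ∀ v w, Word l i v → Word l i w →
    EqOrDisj (A i) (fun b => g l (app x v b)) (fun b => g l (app x w b))

/-- `τ` is a probability distribution. -/
structure Law {Ω : Type} [Fintype Ω] (τ : Ω → ℝ) : Prop where
  nn : ∀ x, 0 ≤ τ x
  one : ∑ x, τ x = 1

/-- The `τ`-probability of `E`. -/
noncomputable def pr {Ω : Type} [Fintype Ω] (τ : Ω → ℝ) (E : Ω → Prop) : ℝ :=
  ∑ x ∈ Finset.univ.filter E, τ x

/-- The children and the grandchildren of a root. -/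
abbrev T2 (M : ℕ) (V : Type) : Type := (Fin M → V) × (Fin M → Fin M → V)

/-- The set of the children and the grandchildren. -/
noncomputable def body {V : Type} {M : ℕ} (t : T2 M V) : Finset V :=
  Finset.univ.image t.1 ∪ Finset.univ.image (fun ij : Fin M × Fin M => t.2 ij.1 ij.2)

/-- `t` is an induced tree of depth two with root `p`; everything but the root lies in `S`. -/
structure IsT2 {V : Type} (G : SimpleGraph V) (S : Finset V) {M : ℕ} (p : V) (t : T2 M V) :
    Prop where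
  mem : ∀ v ∈ body t, v ∈ S
  rt : ∀ v ∈ body t, v ≠ p
  adj1 : ∀ i, G.Adj p (t.1 i)
  adj2 : ∀ i j, G.Adj (t.1 i) (t.2 i j)
  inj1 : ∀ i j, t.1 i = t.1 j → i = j
  inj2 : ∀ i j k l, t.2 i j = t.2 k l → i = k ∧ j = l
  ne : ∀ i j k, t.1 i ≠ t.2 j k
  na0 : ∀ i j, ¬ G.Adj p (t.2 i j)
  na1 : ∀ i j, ¬ G.Adj (t.1 i) (t.1 j)
  na2 : ∀ i j k, i ≠ j → ¬ G.Adj (t.1 i) (t.2 j k)
  na3 : ∀ i j k l, ¬ G.Adj (t.2 i j) (t.2 k l)

/-- Some vertex of `S` is equal or adjacent to `u`. -/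
def Hits {V : Type} (G : SimpleGraph V) (S : Finset V) (u : V) : Prop :=
  ∃ v ∈ S, v = u ∨ G.Adj v u

/-- `R` is captured by at most `K` vertices of `U`: `u` captures `p` if the common neighbours of
`u` and `p` in `U` have `y`-weight at least `e1`. -/
def Poor {V : Type} (G : SimpleGraph V) (U : Finset V) (y : V → ℝ) (e1 : ℝ) (K : ℕ)
    (R : Finset V) : Prop :=
  ∃ Q, Q ⊆ U ∧ Q.card ≤ K ∧ ∀ p ∈ R, ∃ u ∈ Q, e1 ≤ om G U y u p

/-- Every subset `R` of `X` which is not captured has a law on the pairs `(p, t)`, `p ∈ R`, `t` a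
tree of depth two with root `p`, such that no `u ∈ U` is hit with probability more than `e0`. -/
def RichLaw {V : Type} [Fintype V] (G : SimpleGraph V) (U X : Finset V) (y : V → ℝ) (e1 : ℝ)
    (K : ℕ) (e0 : ℝ) (M : ℕ) : Prop :=
  ∀ R, R ⊆ X → ¬ Poor G U y e1 K R → ∃ τ : V × T2 M V → ℝ, Law τ ∧
    (∀ x, τ x ≠ 0 → x.1 ∈ R ∧ IsT2 G U x.1 x.2) ∧
    ∀ u ∈ U, pr τ (fun x => x.1 = u ∨ Hits G (body x.2) u) ≤ e0

/-- The vertices `a` of `A` such that for some `q ∈ D` the common neighbours of `a` and `q` in `X`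
are not captured. -/
noncomputable def Gam {V : Type} (G : SimpleGraph V) (U A X : Finset V) (y : V → ℝ) (e1 : ℝ)
    (K : ℕ) (D : Finset V) : Finset V :=
  A.filter (fun a => ∃ q ∈ D, ¬ Poor G U y e1 K (nb G X a ∩ nb G X q))

/-- The stable set `X` of giants with their trees of depth two inside `Ug`; every vertex of `Ug`
captures at most `C` elements of `X`. -/
structure Base5 {V : Type} [Fintype V] (G : SimpleGraph V) (U X Ug : Finset V) (y : V → ℝ)
    (e1 e : ℝ) (C M : ℕ) (τ : V → T2 M V → ℝ) : Prop where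
  XUg : X ⊆ Ug
  UgU : Ug ⊆ U
  stX : Stab G X
  gi : ∀ p ∈ X, 3 / 4 ≤ wnb G U y p
  few : ∀ u ∈ Ug, (X.filter (fun p => e1 ≤ om G U y u p)).card ≤ C
  law : ∀ p ∈ X, Law (τ p)
  supp : ∀ p ∈ X, ∀ t, τ p t ≠ 0 → IsT2 G Ug p t
  esc : ∀ p ∈ X, ∀ u ∈ U, om G U y u p < e1 →
    pr (τ p) (fun t => Hits G (body t) u) ≤ e

/-- `ThA` of `FracGS` with radius `R`. -/
def ThAR (d k R : ℕ) : Prop :=
  ∃ c : ℝ, 0 < c ∧ ∀ (V : Type) [Fintype V] (G : SimpleGraph V) (A X : Finset V)
    (μ : V → ℝ), (∀ v, 0 ≤ μ v) → Disjoint A X → (∀ a ∈ A, ∃ x ∈ X, G.Adj a x) →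
      NoTree G A X d k →
        ∃ (A' X' : Finset V) (g : V → ℕ), Scheme G A X R A' X' g ∧
          c * ∑ a ∈ A, μ a ≤ ∑ a ∈ A', μ a

end Pool.Agent.Lib.GSR5
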