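import Pool.Agent.Lib.GSR5.Defs
import Pool.Agent.Lib.GSR4.Stmts

/-!
# Trees of radius five in graphs with small second neighbourhoods: statements of the modules
-/

set_option autoImplicit false

namespace Pool.Agent.Lib.GSR5

open Finset Classical
open Pool.Agent.Lib.FracGS (nb wnb om TAdj LTree NoTree Scheme Sep Rich Ctx pat)
open Pool.Agent.Lib.GSR3 (Stab Small EqOrDisj ProperOn app Word Tree LPSol)
open Pool.Agent.Lib.GSR4 (TriFree)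
open Pool.Agent.Lib.UncGS (NE)

/-- Module `Minimax`: the minimax theorem for finite games. -/
def StMinimax : Prop :=
  ∀ (I J : Type) [Fintype I] [Fintype J] (S : Finset I) (C : Finset J) (a : I → J → ℝ) (e : ℝ),
    S.Nonempty → C.Nonempty →
      (∃ τ : I → ℝ, Law τ ∧ (∀ i, τ i ≠ 0 → i ∈ S) ∧ ∀ j ∈ C, ∑ i, τ i * a i j ≤ e) ∨
      (∃ l : J → ℝ, Law l ∧ (∀ j, l j ≠ 0 → j ∈ C) ∧ ∀ i ∈ S, e ≤ ∑ j, l j * a i j)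

/-- Module `Indep`: independent choices avoiding unlikely events. -/
def StIndep : Prop :=
  ∀ (L Ω : Type) [Fintype L] [Fintype Ω] (τ : L → Ω → ℝ) (B : L → Ω → Prop)
    (R : L → L → Ω → Ω → Prop) (β : ℝ), (∀ l, Law (τ l)) → 0 ≤ β →
      (∀ l, pr (τ l) (B l) ≤ β) →
      (∀ l l', l ≠ l' →
        ∑ w, τ l w * pr (τ l') (fun w' => R l l' w w') ≤ β) →
      ((Fintype.card L : ℝ) + (Fintype.card L : ℝ) ^ 2) * β < 1 →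
        ∃ f : L → Ω, (∀ l, τ l (f l) ≠ 0) ∧ (∀ l, ¬ B l (f l)) ∧
          ∀ l l', l ≠ l' → ¬ R l l' (f l) (f l')

/-- Module `Ram`: Ramsey for rows of a triangle-free graph. -/
def StRam : Prop :=
  ∀ M : ℕ, ∃ n : ℕ, M ≤ n ∧ ∀ (V : Type) (G : SimpleGraph V), TriFree G →
    ∀ q : Fin n → Fin n → V, (∀ i j j', ¬ G.Adj (q i j) (q i j')) →
      ∃ (I : Fin M → Fin n) (J : Fin M → Fin M → Fin n), Function.Injective I ∧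
        (∀ i, Function.Injective (J i)) ∧
        ∀ i j i' j', ¬ G.Adj (q (I i) (J i j)) (q (I i') (J i' j'))

/-- Module `VC`: bounded VC dimension of the neighbourhoods. -/
def StVC5 : Prop :=
  ∀ d M : ℕ, ∃ D : ℕ, ∀ (V : Type) [Fintype V] (G : SimpleGraph V), TriFree G →
    (∀ φ : List (Fin M) → V, ¬ Tree G d M φ) →
      ∀ S : Finset V, D ≤ S.card → ∃ T, T ⊆ S ∧ ∀ v, nb G S v ≠ T

/-- Module `Enet`: epsilon-nets for closed neighbourhoods. -/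
def StEnet : Prop :=
  ∀ (M : ℕ) (e : ℝ), 0 < e → ∃ m : ℕ, ∀ (V : Type) [Fintype V] (G : SimpleGraph V), TriFree G →
    (∀ φ : List (Fin M) → V, ¬ Tree G 5 M φ) → ∀ l : V → ℝ, Law l →
      ∃ Q : Finset V, (∀ q ∈ Q, l q ≠ 0) ∧ Q.card ≤ m ∧ (∀ v, e ≤ l v → v ∈ Q) ∧
        ∀ v, e ≤ pr l (fun u => v = u ∨ G.Adj v u) → ∃ q ∈ Q, v = q ∨ G.Adj v q

/-- Module `LawG`: laws on the trees of depth two at giants, or a bounded set of captors. -/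
def StLawG : Prop :=
  ∀ (M : ℕ) (e0 : ℝ), 0 < e0 → ∃ (K : ℕ) (e1 ρ0 : ℝ), 0 < e1 ∧ e1 ≤ 3 / 4 ∧ 1 < ρ0 ∧
    ∀ (V : Type) [Fintype V] (G : SimpleGraph V) (U : Finset V) (ρ : ℝ) (y ν Lam : V → ℝ)
      (lam : Finset V → ℝ), TriFree G → (∀ φ : List (Fin M) → V, ¬ Tree G 5 M φ) → ρ0 ≤ ρ →
        LPSol G U ρ y ν Lam lam →
        ∀ R C : Finset V, R ⊆ U → C ⊆ U → (∀ p ∈ R, 3 / 4 ≤ wnb G U y p) →
          (∃ τ : V × T2 M V → ℝ, Law τ ∧ (∀ x, τ x ≠ 0 → x.1 ∈ R ∧ IsT2 G U x.1 x.2) ∧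
            ∀ u ∈ C, pr τ (fun x => x.1 = u ∨ Hits G (body x.2) u) ≤ e0) ∨
          (∃ Q, Q ⊆ C ∧ Q.card ≤ K ∧ ∀ p ∈ R, ∃ u ∈ Q, e1 ≤ om G U y u p)

/-- Module `Hit`: the hitting lemma. -/
def StHit : Prop :=
  ∀ (V Λ : Type) [Fintype V] (G : SimpleGraph V) (P Q : Finset V) (μ : V → ℝ)
    (L W : V → Finset Λ) (t : V → Λ) (N m : ℕ), (∀ v, 0 ≤ μ v) →
      (∀ p ∈ P, (L p).card ≤ N) → (∀ q ∈ Q, (W q).card ≤ m) →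
      (∀ q ∈ Q, ∃ p ∈ P, G.Adj q p) →
      (∀ q ∈ Q, ∀ p ∈ P, G.Adj q p → t q ∈ L p ∨ ∃ s ∈ W q, s ∈ L p) →
        ∃ (P' Q' : Finset V) (hp hq : V → Λ), P' ⊆ P ∧ Q' ⊆ Q ∧
          (∀ q ∈ Q', ∃ p ∈ P', G.Adj q p) ∧
          (∀ q ∈ Q', ∀ p ∈ P', G.Adj q p → hp p = hq q ∧ hq q ∈ L p) ∧
          (∀ q ∈ Q', hq q ∈ W q ∨
            (hq q = t q ∧ ∀ p ∈ P', G.Adj q p → ∀ s ∈ W q, s ∉ L p)) ∧
          ∑ q ∈ Q, μ q ≤ 3 ^ (1 + m + N) * ∑ q ∈ Q', μ q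

/-- Module `P3`: the vertices with captured neighbourhoods in `X'` form a small set. -/
def StP3 : Prop :=
  ∀ (M K : ℕ) (e1 : ℝ), 0 < e1 → ∃ (ρ0 C : ℝ), 1 < ρ0 ∧ 1 ≤ C ∧
    ∀ (V : Type) [Fintype V] (G : SimpleGraph V) (U : Finset V) (ρ : ℝ) (y ν Lam : V → ℝ)
      (lam : Finset V → ℝ) (κ c : ℝ), TriFree G → (∀ φ : List (Fin M) → V, ¬ Tree G 5 M φ) →
        ρ0 ≤ ρ → LPSol G U ρ y ν Lam lam → 1 ≤ κ → 0 ≤ c →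
        (∀ v ∈ U, Small G (nb2 G U v) κ) → NLC G U κ c →
        ∀ X' A' : Finset V, X' ⊆ U → A' ⊆ U → Disjoint A' X' →
          (∀ a ∈ A', (∃ p ∈ X', G.Adj a p) ∧ Poor G U y e1 K (nb G X' a)) →
            Small G A' (C * c)

/-- Module `Samp`: the random choice of the giants `X`. -/
def StSamp : Prop :=
  ∀ (M : ℕ) (e1 e : ℝ), 0 < e1 → 0 < e → ∃ C : ℕ, ∀ c ρ : ℝ, 1 ≤ c → 2 ≤ ρ →
    ∃ C2 : ℝ, 1 ≤ C2 ∧ ∀ (V : Type) [Fintype V] (G : SimpleGraph V) (U : Finset V)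
      (y ν Lam : V → ℝ) (lam : Finset V → ℝ) (τ0 : V → T2 M V → ℝ), TriFree G →
        LPSol G U ρ y ν Lam lam → NE G U c →
        (∀ p ∈ U, 3 / 4 ≤ wnb G U y p → Law (τ0 p) ∧ (∀ t, τ0 p t ≠ 0 → IsT2 G U p t) ∧
          ∀ u ∈ U, om G U y u p < e1 → pr (τ0 p) (fun t => Hits G (body t) u) ≤ e / 2) →
        ∀ μ : V → ℝ, (∀ v, 0 ≤ μ v) →
          (∃ I, I ⊆ U ∧ Stab G I ∧ ∑ v ∈ U, μ v ≤ C2 * ∑ v ∈ I, μ v) ∨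
          ∃ (X Ug A : Finset V) (τ : V → T2 M V → ℝ), Base5 G U X Ug y e1 e C M τ ∧
            A ⊆ Ug ∧ Disjoint A X ∧ (∀ a ∈ A, ∃ p ∈ X, G.Adj a p) ∧
            ∑ v ∈ U, μ v ≤ C2 * ∑ v ∈ A, μ v

/-- Module `Ext`: a tree of depth three with leaves in `X` extends to a tree of depth five. -/
def StExt : Prop :=
  ∀ M : ℕ, ∃ e : ℝ, 0 < e ∧ ∀ C : ℕ, ∃ k : ℕ, ∀ (V : Type) [Fintype V] (G : SimpleGraph V)
    (U X Ug : Finset V) (y : V → ℝ) (e1 : ℝ) (τ : V → T2 M V → ℝ),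
      Base5 G U X Ug y e1 e C M τ → ∀ φ : List (Fin k) → V, Tree G 3 k φ →
        (∀ w, w.length ≤ 3 → φ w ∈ Ug) → (∀ w, w.length = 3 → φ w ∈ X) →
          ∃ φ' : List (Fin M) → V, Tree G 5 M φ'

/-- Module `Cross`: no cross-induced tree of depth three with leaves in `X`. -/
def StCross : Prop :=
  ∀ M : ℕ, ∃ e : ℝ, 0 < e ∧ ∀ C : ℕ, ∃ k : ℕ, 2 ≤ k ∧ ∀ (V : Type) [Fintype V]
    (G : SimpleGraph V) (U X Ug : Finset V) (y : V → ℝ) (e1 : ℝ) (τ : V → T2 M V → ℝ),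
      TriFree G → Base5 G U X Ug y e1 e C M τ → (∀ φ : List (Fin M) → V, ¬ Tree G 5 M φ) →
        ∀ P B : Finset V, P ⊆ X → B ⊆ Ug → NoTree G P B 3 k

/-- Module `Star`: there are no free stars of hubs. -/
def StStar : Prop :=
  ∀ (M : ℕ) (κ : ℝ), 1 ≤ κ → ∃ (n : ℕ) (e0 σ : ℝ), 2 ≤ n ∧ 0 < e0 ∧ 1 ≤ σ ∧
    ∀ (V : Type) [Fintype V] (G : SimpleGraph V) (U A X : Finset V) (y : V → ℝ) (e1 : ℝ)
      (K : ℕ), TriFree G → A ⊆ U → X ⊆ U → Disjoint A X → Stab G X →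
        (∀ v ∈ U, Small G (nb2 G U v) κ) → RichLaw G U X y e1 K e0 M →
        ∀ x ∈ U, ∀ b : Fin n → V, Function.Injective b → (∀ i, b i ∈ nb G X x) →
          (∀ i, ¬ Small G (Gam G U A X y e1 K
            ((nb G A (b i)).filter (fun q => ∀ l, l ≠ i → ¬ G.Adj (b l) q))) σ) →
            ∃ φ : List (Fin M) → V, Tree G 5 M φ

/-- Module `NetX`: a label cover, or a cover without vertices of `X'` whose neighbourhood in `W'`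
is significant. -/
def StNetX : Prop :=
  ∀ n : ℕ, ∃ c0 : ℝ, 0 < c0 ∧ ∀ (V : Type) [Fintype V] (G : SimpleGraph V) (U A X : Finset V)
    (μ : V → ℝ) (Sig : Finset V → Prop), A ⊆ U → X ⊆ U → Disjoint A X → Stab G X →
      (∀ v, 0 ≤ μ v) → (∀ a ∈ A, ∃ p ∈ X, G.Adj a p) → (∀ D D', D ⊆ D' → Sig D → Sig D') →
      (∀ x ∈ U, ∀ b : Fin n → V, Function.Injective b → (∀ i, b i ∈ nb G X x) →
        ∃ i, ¬ Sig ((nb G A (b i)).filter (fun q => ∀ l, l ≠ i → ¬ G.Adj (b l) q))) →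
        (∃ (P' Q' : Finset V) (h : V → V), P' ⊆ X ∧ Q' ⊆ A ∧
          (∀ q ∈ Q', ∃ p ∈ P', G.Adj q p) ∧ (∀ q ∈ Q', ∀ p ∈ P', G.Adj q p → h p = h q) ∧
          (∀ q ∈ Q', G.Adj q (h q)) ∧ c0 * ∑ a ∈ A, μ a ≤ ∑ q ∈ Q', μ q) ∨
        (∃ X' W' : Finset V, X' ⊆ X ∧ W' ⊆ A ∧ (∀ a ∈ W', ∃ p ∈ X', G.Adj a p) ∧
          (∀ p ∈ X', ¬ Sig (nb G W' p)) ∧ c0 * ∑ a ∈ A, μ a ≤ ∑ a ∈ W', μ a)

/-- Module `ThA3`: schemes of radius one. -/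
def StThA3 : Prop := ∀ k : ℕ, 2 ≤ k → ThAR 3 k 1

/-- Module `PhaseOne`: a label cover, or a cover of a part of `Xn` by kings. -/
def StPhaseOne : Prop :=
  ∀ k K N : ℕ, ThAR 3 k 1 → ∃ c0 : ℝ, 0 < c0 ∧ ∀ (V : Type) [Fintype V] (G : SimpleGraph V)
    (A X Xn Z : Finset V) (μ α ζ : V → ℝ) (δ : ℝ), Ctx G A X Xn Z μ α ζ δ 3 k N →
      (∀ P B, P ⊆ X → B ⊆ A → NoTree G P B 3 k) →
      (∀ x ∈ Xn, wnb G A ζ x ≤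
        2 * ∑ q ∈ (nb G A x).filter (fun q => ¬ Rich G A X ζ δ K 1 q ∅), ζ q) →
        (∃ (P' Q' : Finset V) (h : V → V), P' ⊆ X ∧ Q' ⊆ A ∧
          (∀ q ∈ Q', ∃ p ∈ P', G.Adj q p) ∧ (∀ q ∈ Q', ∀ p ∈ P', G.Adj q p → h p = h q) ∧
          (∀ q ∈ Q', h q ∈ A ∧ ∀ p ∈ P', G.Adj q p → G.Adj (h q) p) ∧
          c0 * ∑ x ∈ Xn, α x ≤ ∑ q ∈ Q', μ q) ∨
        (∃ (P B : Finset V) (h : V → ℕ) (qk : V → V), P ⊆ Xn ∧ B ⊆ A ∧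
          (∀ p ∈ P, qk p ∈ B ∧ G.Adj p (qk p)) ∧
          (∀ p ∈ P, ∀ q ∈ B, G.Adj p q → h q = h (qk p)) ∧
          (∀ q ∈ B, (∀ q' ∈ B, h q' = h q → q' = q) ∨
            ∃ z ∈ X, ∀ q' ∈ B, h q' = h q → G.Adj z q') ∧
          (∀ p ∈ P, wnb G A ζ p ≤
            2 * ∑ b ∈ (nb G A p).filter (fun b => ¬ Rich G A X ζ δ K 0 b {qk p}), ζ b) ∧
          c0 * ∑ x ∈ Xn, α x ≤ ∑ x ∈ P, α x)

/-- Module `PhaseZero`: the last phase. -/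
def StPhaseZero : Prop :=
  ∀ K N : ℕ, ∃ c0 : ℝ, 0 < c0 ∧ ∀ (V : Type) [Fintype V] (G : SimpleGraph V)
    (A X Xn Z : Finset V) (μ α ζ : V → ℝ) (δ : ℝ) (k : ℕ), Ctx G A X Xn Z μ α ζ δ 3 k N →
      ∀ (P B : Finset V) (h : V → ℕ) (qk : V → V), P ⊆ Xn → B ⊆ A →
        (∀ p ∈ P, qk p ∈ B ∧ G.Adj p (qk p)) →
        (∀ p ∈ P, ∀ q ∈ B, G.Adj p q → h q = h (qk p)) →
        (∀ p ∈ P, wnb G A ζ p ≤
          2 * ∑ b ∈ (nb G A p).filter (fun b => ¬ Rich G A X ζ δ K 0 b {qk p}), ζ b) →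
        ∃ (P' Q' : Finset V) (H : V → ℕ ⊕ V), P' ⊆ P ∧ Q' ⊆ A ∧
          (∀ b ∈ Q', ∃ p ∈ P', G.Adj b p) ∧ (∀ b ∈ Q', ∀ p ∈ P', G.Adj b p → H p = H b) ∧
          (∀ b ∈ Q', (∃ z ∈ A, H b = Sum.inr z ∧ ∀ p ∈ P', G.Adj b p → G.Adj z p) ∨
            ∃ x ∈ P, H b = Sum.inl (h (qk x)) ∧ ∀ p ∈ P', G.Adj b p → G.Adj (qk x) p) ∧
          c0 * ∑ x ∈ P, α x ≤ ∑ b ∈ Q', μ b

/-- Module `Sch`: the scheme. -/
def StSch : Prop :=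
  ∀ k : ℕ, 2 ≤ k → ∃ c0 : ℝ, 0 < c0 ∧ ∀ (V : Type) [Fintype V] (G : SimpleGraph V)
    (A X : Finset V) (μ : V → ℝ), (∀ v, 0 ≤ μ v) → Disjoint A X →
      (∀ a ∈ A, ∃ x ∈ X, G.Adj a x) → (∀ P B, P ⊆ X → B ⊆ A → NoTree G P B 3 k) →
        ∃ (P' Q' : Finset V) (H : V → ℕ ⊕ V), P' ⊆ X ∧ Q' ⊆ A ∧
          (∀ b ∈ Q', ∃ p ∈ P', G.Adj b p) ∧ (∀ b ∈ Q', ∀ p ∈ P', G.Adj b p → H p = H b) ∧
          (∀ z, ∀ b ∈ Q', H b = Sum.inr z → z ∈ A ∧ ∀ p ∈ P', G.Adj b p → G.Adj z p) ∧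
          (∀ t, (∃ q ∈ A, ∀ b ∈ Q', H b = Sum.inl t → ∀ p ∈ P', G.Adj b p → G.Adj q p) ∨
            (∃ z ∈ X, ∀ b ∈ Q', H b = Sum.inl t →
              ∃ q ∈ nb G A z, ∀ p ∈ P', G.Adj b p → G.Adj q p) ∨
            ∀ b ∈ Q', H b ≠ Sum.inl t) ∧
          c0 * ∑ a ∈ A, μ a ≤ ∑ b ∈ Q', μ b

/-- Module `Core`: the theorem on trees of radius five. -/
def StCore : Prop :=
  ∀ (M : ℕ) (κ : ℝ), 1 ≤ κ → ∃ κ1 : ℝ, 1 ≤ κ1 ∧ ∀ c : ℝ, 0 ≤ c → ∃ F : ℝ, 0 ≤ F ∧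
    ∀ (V : Type) [Fintype V] (G : SimpleGraph V) (U : Finset V), TriFree G →
      (∀ v ∈ U, Small G (nb2 G U v) κ) → (∀ φ : List (Fin M) → V, ¬ Tree G 5 M φ) →
        NLC G U κ1 c → Small G U F

/-- Module `TreeF`: a chain contains every tree. -/
def StTreeF : Prop :=
  ∀ (V : Type) (G : SimpleGraph V) (x g : ℕ → V → V) (A : ℕ → Finset V) (n : ℕ)
    (par : ℕ → ℕ), (∀ j, 1 ≤ j → par j < j) → IsChainF G x g A n → (A n).Nonempty →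
      Nonempty (pat par (n + 1) ↪g G)

/-- Module `ChainF`: covers exact up to labels give chains. -/
def StChainF : Prop :=
  ∀ (n : ℕ) (par : ℕ → ℕ) (κ : ℝ) (f : ℝ → ℝ), (∀ j, 1 ≤ j → par j < j) → 0 ≤ κ →
    (∀ c, 0 ≤ f c) → ∃ F : ℝ, 0 ≤ F ∧ ∀ (V : Type) [Fintype V] (G : SimpleGraph V)
      (U : Finset V), HasLabF G κ U f → IsEmpty (pat par (n + 1) ↪g G) → Small G U F

/-- Module `Final`: trees of radius five in triangle-free graphs with small second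
neighbourhoods. -/
def StSB2 : Prop :=
  ∀ (W : Type) [Fintype W] (T : SimpleGraph W) (r : W), T.IsTree → (∀ v, T.dist r v ≤ 5) →
    ∀ κ : ℝ, ∃ F : ℝ, 0 ≤ F ∧ ∀ (V : Type) [Fintype V] (G : SimpleGraph V), TriFree G →
      (∀ v, Small G (nb2 G Finset.univ v) κ) → IsEmpty (T ↪g G) → Small G Finset.univ F

end Pool.Agent.Lib.GSR5
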